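import Pool.Agent.Work.MP_3fbbd3_fit.NLen
import Pool.Agent.Work.MP_3fbbd3_fit.SYN
import Pool.Agent.Work.MP_3fbbd3_fit.GP
import Pool.Agent.Work.MP_3fbbd3_fit.EE
import Pool.Agent.Work.MP_3fbbd3_fit.TR
import Pool.Agent.Work.MP_3fbbd3_fit.COM
import Pool.Agent.Work.MP_3fbbd3_fit.RR
import Pool.Agent.Work.MP_3fbbd3_fit.BDM
import Pool.Agent.Work.MP_3fbbd3_fit.RRR
import Pool.Agent.Work.MP_3fbbd3_fit.EB
import Pool.Agent.Work.MP_3fbbd3_fit.WB
import Pool.Agent.Work.MP_3fbbd3_fit.WORD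
import Pool.Agent.Work.MP_3fbbd3_fit.VS
import Pool.Agent.Work.MP_3fbbd3_fit.QUO
import Pool.Agent.Work.MP_3fbbd3_fit.LEN
import Pool.Agent.Work.MP_3fbbd3_h11.FG
import Pool.Agent.Work.MP_3fbbd3_h11.FI
import Pool.Agent.Work.MP_3fbbd3_h11.BRK
import Pool.Agent.Work.MP_3fbbd3_h11.EXPN
import Pool.Agent.Work.MP_3fbbd3_h11.FFG
import Pool.Agent.Work.MP_3fbbd3_h11.POLY
import Pool.Agent.Work.MP_3fbbd3_h11.KMC
import Pool.Agent.Work.MP_3fbbd3_h11.KMA
import Pool.Agent.Work.MP_3fbbd3_h11.FITT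

/-!
# Nilpotent length of proper subgroups of perfect locally finite `p`-groups

For every `k` every nontrivial perfect locally finite `p`-group has a proper subgroup which is
not of nilpotent length at most `k`.
-/

namespace Pool.Agent.Results.MP_3fbbd3_al.NilpotentLength

open Subgroup Pool.Agent.Work.MP_3fbbd3_h11 Pool.Agent.Work.MP_3fbbd3_fit

universe u

/-- **Theorem.** -/
theorem result (p : ℕ) (hp : p.Prime) (G : Type u) [Group G] [Nontrivial G] (hG : IsPGroup p G)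
    (hperf : commutator G = ⊤)
    (hlf : ∀ s : Set G, s.Finite → ((Subgroup.closure s : Subgroup G) : Set G).Finite) (k : ℕ) :
    ∃ H : Subgroup G, H ≠ ⊤ ∧
      ∀ m : ℕ, (fun X : Subgroup G => X.lowerCentralSeries m)^[k] H ≠ ⊥ := by
  have hC : Ctx p G := ⟨hp, inferInstance, hG, hperf, hlf⟩
  have hSYN := blk_SYN.{u}
  have hGP := blk_GP blk_EXPN.{u} blk_FFG.{u} blk_POLY.{u}
  have hCOM := blk_COM hSYN
  have hRR := blk_RR hSYN hCOM
  have hBDM := blk_BDM hCOM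
  have hRRR := blk_RRR hSYN hCOM hRR hBDM
  have hEB := blk_EB hRRR hBDM
  have hWB := blk_WB hSYN blk_TR.{u} hEB hBDM
  have hKMA := blk_KMA blk_FI.{u} blk_KMC.{u}
  by_contra hcon
  push Not at hcon
  obtain ⟨H, hH, hHs⟩ := main_len hGP blk_EE.{u} hCOM hWB blk_WORD.{u} blk_VS.{u} blk_QUO.{u}
    (blk_LEN blk_FITT.{u}) blk_FG.{u} blk_BRK.{u} hKMA p hC k
    fun F hF => hcon _ (blk_FG p G hC F hF)
  obtain ⟨m, hm⟩ := hcon H hH
  exact hHs (solvable_of_iterate hm)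

end Pool.Agent.Results.MP_3fbbd3_al.NilpotentLength
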