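import Pool.Agent.Work.MP_3fbbd3_adj.All3
import Pool.Agent.Work.MP_3fbbd3_adj.SNV

/-!
# Perfect locally finite `p`-groups which are subnormal in unit groups of rings

Let `G` be a perfect locally finite `p`-group, `A` an arbitrary ring and `φ` a non-trivial
homomorphism of `G` to the group of units of `A`. Suppose that `φ(G)` is subnormal in a subgroup `U`
of the group of units which contains `1 + x` for every nilpotent element `x` of the additive span
of the elements `φ g - 1` (for example, in the whole group of units). Then `G` has a proper subgroup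
which is not solvable.
-/

namespace Pool.Agent.Results.MP_3fbbd3_al.SubnormalUnitGroups

open Pool.Agent.Work.MP_3fbbd3_adj

universe u v

/-- **Main theorem.** -/
theorem result (p : ℕ) (hp : p.Prime) (G : Type u) [Group G] (hG : IsPGroup p G)
    (hperf : commutator G = ⊤)
    (hlf : ∀ s : Set G, s.Finite → ((Subgroup.closure s : Subgroup G) : Set G).Finite)
    (A : Type v) [Ring A] (φ : G →* Aˣ) (hφ : ∃ g : G, φ g ≠ 1) (U : Subgroup Aˣ)
    (hU : φ.range ≤ U) (hsub : (φ.range.subgroupOf U).IsSubnormal)
    (hnil : ∀ x ∈ Submodule.span ℤ (Set.range fun g : G => ((φ g : Aˣ) : A) - 1),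
      IsNilpotent x → ∃ w ∈ U, ((w : Aˣ) : A) = 1 + x) :
    ∃ H : Subgroup G, H ≠ ⊤ ∧ ¬ Group.IsSolvable H :=
  snv snt.{max u v} p hp G hG hperf hlf A φ hφ U hU hsub hnil

end Pool.Agent.Results.MP_3fbbd3_al.SubnormalUnitGroups
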