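import Pool.Agent.Work.MP_3fbbd3_adj.UNT
import Pool.Agent.Work.MP_3fbbd3_adj.MSU
import Pool.Agent.Work.MP_3fbbd3_adj.NILU4
import Pool.Agent.Work.MP_3fbbd3_adj.NAK
import Pool.Agent.Work.MP_3fbbd3_adj.LCS
import Pool.Agent.Work.MP_3fbbd3_adj.PG
import Pool.Agent.Work.MP_3fbbd3_adj.REDU
import Pool.Agent.Work.MP_3fbbd3_adj.NP

/-!
# Perfect locally finite `p`-groups which are subnormal in unitary groups of rings

Let `p` be an odd prime, `G` a perfect locally finite `p`-group, `A` an arbitrary ring with an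
involution and `φ` a non-trivial homomorphism of `G` to the unitary group of `A` whose image is
subnormal and for which the elements `φ g - 1` have additive order a power of `p`. Then `G` has a
proper subgroup which is not solvable.
-/

namespace Pool.Agent.Results.MP_3fbbd3_al.UnitaryGroups

open Pool.Agent.Work.MP_3fbbd3_adj

universe u v

/-- **Main theorem.** -/
theorem result (p : ℕ) (hp : p.Prime) (hp2 : p ≠ 2) (G : Type u) [Group G] (hG : IsPGroup p G)
    (hperf : commutator G = ⊤)
    (hlf : ∀ s : Set G, s.Finite → ((Subgroup.closure s : Subgroup G) : Set G).Finite)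
    (A : Type v) [Ring A] [StarRing A] (φ : G →* unitary A) (hφ : ∃ g : G, φ g ≠ 1)
    (hsub : φ.range.IsSubnormal)
    (htor : ∀ g : G, ∃ n : ℕ, p ^ n • (((φ g : unitary A) : A) - 1) = 0) :
    ∃ H : Subgroup G, H ≠ ⊤ ∧ ¬ Group.IsSolvable H :=
  unv (blk_UNT (blk_MSU blk_NILU blk_NAK blk_LCS blk_PG) (blk_REDU blk_NP))
    p hp hp2 G hG hperf hlf A φ hφ hsub htor

end Pool.Agent.Results.MP_3fbbd3_al.UnitaryGroups
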